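import Pool.Agent.W620.SC.Core
import Mathlib

/-!
# Sections and norms from cyclic extensions: the abstract argument
-/

set_option autoImplicit false
set_option maxHeartbeats 1000000

namespace Pool.Agent.N999.CY

open Pool.Agent.W620.SC Finset Polynomial

/-- roots of constants are constants -/
lemma root_const {A M : Type*} [Field A] [CharZero A] [Field M] [IsAlgClosed A] (ι : A →+* M)
    {n : ℕ} (hn : 0 < n) {z : M} {c : A} (h : z ^ n = ι c) : ∃ b : A, ι b = z := by
  by_cases hc : c = 0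
  · refine ⟨0, ?_⟩
    rw [hc, map_zero] at h
    rw [map_zero]
    exact ((pow_eq_zero_iff hn.ne').1 h).symm
  · obtain ⟨b, hb⟩ := IsAlgClosed.exists_pow_nat_eq c hn
    have hb0 : ι b ≠ 0 := by
      rw [Ne, map_eq_zero]
      rintro rfl
      rw [zero_pow hn.ne'] at hb
      exact hc hb.symm
    have hnA : NeZero (n : A) := ⟨Nat.cast_ne_zero.2 hn.ne'⟩
    have hnN : NeZero n := ⟨hn.ne'⟩
    obtain ⟨ζ, hζ⟩ := IsAlgClosed.exists_root (cyclotomic n A)
      (degree_cyclotomic_pos n A hn).ne'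
    have hprim : IsPrimitiveRoot ζ n := isRoot_cyclotomic_iff.1 hζ
    have hprim' : IsPrimitiveRoot (ι ζ) n := hprim.map_of_injective ι.injective
    have h1 : (z / ι b) ^ n = 1 := by
      rw [div_pow, h, ← map_pow, hb, div_self]
      rw [Ne, map_eq_zero]
      exact hc
    obtain ⟨i, -, hi⟩ := hprim'.eq_pow_of_pow_eq_one h1
    refine ⟨ζ ^ i * b, ?_⟩
    rw [map_mul, map_pow, hi, div_mul_cancel₀ _ hb0]

/-- the elements fixed by a subgroup -/
def fixT {k A M : Type*} [Field k] [Field A] [Field M] [Algebra k A]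
    (s : (A ≃ₐ[k] A) →* RingAut M) (T : Subgroup (A ≃ₐ[k] A)) : Subfield M where
  carrier := {m | ∀ σ ∈ T, s σ m = m}
  mul_mem' := fun {a b} ha hb σ hσ => by rw [map_mul, ha σ hσ, hb σ hσ]
  one_mem' := fun σ _ => map_one _
  add_mem' := fun {a b} ha hb σ hσ => by rw [map_add, ha σ hσ, hb σ hσ]
  zero_mem' := fun σ _ => map_zero _
  neg_mem' := fun {a} ha σ hσ => by rw [map_neg, ha σ hσ]
  inv_mem' := fun a ha σ hσ => by rw [map_inv₀, ha σ hσ]

section main

variable {k E : Type} {A M : Type*} [Field k] [Field E] [Field A] [Field M] [Algebra k A]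
  [Algebra k E] [CharZero k] [IsAlgClosed A] [Algebra.IsAlgebraic k A] [FiniteDimensional k E]
  [IsGalois k E] [IsCyclic (E ≃ₐ[k] E)] [Fintype (E →ₐ[k] A)]

/-- The main argument. -/
theorem core (s : (A ≃ₐ[k] A) →* RingAut M) (ι : A →+* M)
    (hι : ∀ σ a, s σ (ι a) = ι (σ a))
    (cont : ∀ w : M, ∃ L : IntermediateField k A, FiniteDimensional k L ∧
      ∀ σ ∈ L.fixingSubgroup, s σ w = w)
    (a : k) (y : M) (hy0 : y ≠ 0) (hy : ∀ σ, s σ y = y) (lam : (E →ₐ[k] A) → M)
    (hlam0 : ∀ i, lam i ≠ 0)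
    (hs : ∀ (σ : A ≃ₐ[k] A) (i : E →ₐ[k] A), s σ (lam i) = lam ((σ : A →ₐ[k] A).comp i))
    (n r t : ℕ) (hn : 0 < n) (hnr : n * r = Module.finrank k E * t)
    (hprod : ∏ i, lam i = ι (algebraMap k A a) * y ^ n)
    (hroot : ∀ i j, ∃ w : M, w ^ n = lam i / lam j) :
    ∃ (e : E) (b : k), e ≠ 0 ∧ b ≠ 0 ∧
      a ^ r = Algebra.norm k e * b ^ (t * ∑ j ∈ range (Module.finrank k E), j) := by
  classical
  have hcA : CharZero A := charZero_of_injective_algebraMap (algebraMap k A).injective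
  have hacl : IsAlgClosure k A := ⟨‹_›, ‹_›⟩
  have hnorm : Normal k A := IsAlgClosure.normal k A
  have hgalA : IsGalois k A := ⟨⟩
  obtain ⟨g0, hg0⟩ := IsCyclic.exists_generator (α := E ≃ₐ[k] E)
  set d := Module.finrank k E with hd
  have hdpos : 0 < d := Module.finrank_pos
  have hord : orderOf g0 = d := by
    rw [orderOf_eq_card_of_forall_mem_zpowers hg0, IsGalois.card_aut_eq_finrank]
  have hg0d : g0 ^ d = 1 := by rw [← hord, pow_orderOf_eq_one]
  let i0 : E →ₐ[k] A := IsAlgClosed.lift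
  -- the lift of the generator
  obtain ⟨τ, hτ⟩ : ∃ τ : A ≃ₐ[k] A, ∀ x, τ (i0 x) = i0 (g0 x) := by
    letI : Algebra E A := i0.toRingHom.toAlgebra
    haveI : IsScalarTower k E A := IsScalarTower.of_algebraMap_eq fun x => (i0.commutes x).symm
    exact ⟨g0.liftNormal A, fun x => g0.liftNormal_commutes A x⟩
  -- all embeddings
  let emb : ℕ → (E →ₐ[k] A) := fun m => i0.comp ((g0 ^ m : E ≃ₐ[k] E) : E →ₐ[k] E)
  have hemb : ∀ m x, emb m x = i0 ((g0 ^ m : E ≃ₐ[k] E) x) := fun m x => rfl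
  have hbij : Function.Bijective (fun m : Fin d => emb m) := by
    rw [Fintype.bijective_iff_injective_and_card]
    refine ⟨?_, ?_⟩
    · intro m m' h
      have h1 : g0 ^ (m : ℕ) = g0 ^ (m' : ℕ) := by
        ext x
        exact i0.injective (DFunLike.congr_fun h x)
      have h2 := pow_inj_mod.1 h1
      rw [hord, Nat.mod_eq_of_lt m.2, Nat.mod_eq_of_lt m'.2] at h2
      exact Fin.ext h2
    · rw [Fintype.card_fin]
      convert (AlgHom.card k E A).symm
  have hprodemb : ∀ f : (E →ₐ[k] A) → M, ∏ i, f i = ∏ m ∈ range d, f (emb m) := by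
    intro f
    rw [Finset.prod_range, ← (Equiv.ofBijective _ hbij).prod_comp f]
    rfl
  have hsurj : ∀ i : E →ₐ[k] A, ∃ m : ℕ, i = emb m := by
    intro i
    obtain ⟨m, hm⟩ := hbij.2 i
    exact ⟨m, hm.symm⟩
  -- the group `T` and the automorphism `g`
  set T : Subgroup (A ≃ₐ[k] A) := (i0.fieldRange).fixingSubgroup with hT
  have hTmem : ∀ σ, σ ∈ T ↔ ∀ x, σ (i0 x) = i0 x := by
    intro σ
    rw [hT, IntermediateField.mem_fixingSubgroup_iff]
    constructor
    · intro h x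
      exact h _ ⟨x, rfl⟩
    · rintro h _ ⟨x, rfl⟩
      exact h x
  set g : RingAut M := s τ with hg
  have hτm : ∀ (m : ℕ) x, (τ ^ m) (i0 x) = i0 ((g0 ^ m : E ≃ₐ[k] E) x) := by
    intro m
    induction m with
    | zero => intro x; rfl
    | succ m ih =>
      intro x
      rw [pow_succ', pow_succ', AlgEquiv.mul_apply, AlgEquiv.mul_apply, ih, hτ]
  have hgm : ∀ m : ℕ, g ^ m = s (τ ^ m) := fun m => (map_pow s τ m).symm
  have hg_ι : ∀ x : E, g (ι (i0 x)) = ι (i0 (g0 x)) := by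
    intro x
    rw [hg, hι, hτ]
  have hgm_ι : ∀ (m : ℕ) (x : E), (g ^ m) (ι (i0 x)) = ι (i0 ((g0 ^ m : E ≃ₐ[k] E) x)) := by
    intro m x
    rw [hgm, hι, hτm]
  have hι_const : ∀ (σ : A ≃ₐ[k] A) (c : k), s σ (ι (algebraMap k A c)) = ι (algebraMap k A c) := by
    intro σ c
    rw [hι, σ.commutes]
  have hi0T : ∀ x : E, ι (i0 x) ∈ fixT s T := by
    intro x σ hσ
    rw [hι, (hTmem σ).1 hσ]
  have hgT : ∀ z ∈ fixT s T, g z ∈ fixT s T := by
    intro z hz σ hσ
    have h1 : τ⁻¹ * σ * τ ∈ T := by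
      rw [hTmem]
      intro x
      rw [AlgEquiv.mul_apply, AlgEquiv.mul_apply, hτ, (hTmem σ).1 hσ, ← hτ]
      exact τ.symm_apply_apply _
    have h2 : σ * τ = τ * (τ⁻¹ * σ * τ) := by group
    have h3 : s σ (g z) = (s (σ * τ)) z := by
      rw [map_mul]
      rfl
    rw [h3, h2, map_mul]
    change g (s (τ⁻¹ * σ * τ) z) = g z
    rw [hz _ h1]
  have hgmT : ∀ (m : ℕ) (z), z ∈ fixT s T → (g ^ m) z ∈ fixT s T := by
    intro m
    induction m with
    | zero => intro z hz; exact hz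
    | succ m ih =>
      intro z hz
      rw [pow_succ']
      exact hgT _ (ih z hz)
  have hgd : ∀ z ∈ fixT s T, (g ^ d) z = z := by
    intro z hz
    rw [hgm]
    apply hz
    rw [hTmem]
    intro x
    rw [hτm, hg0d]
    rfl
  have hfixall : ∀ z ∈ fixT s T, g z = z → ∀ σ, s σ z = z := by
    intro z hz hgz σ
    obtain ⟨m, hm⟩ := hsurj ((σ : A →ₐ[k] A).comp i0)
    have h1 : (τ ^ m)⁻¹ * σ ∈ T := by
      rw [hTmem]
      intro x
      rw [AlgEquiv.mul_apply]
      have h2 : σ (i0 x) = (τ ^ m) (i0 x) := by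
        rw [hτm]
        exact DFunLike.congr_fun hm x
      rw [h2]
      exact (τ ^ m).symm_apply_apply _
    have h3 : σ = τ ^ m * ((τ ^ m)⁻¹ * σ) := by group
    have h4 : ∀ m : ℕ, (g ^ m) z = z := by
      intro m
      induction m with
      | zero => rfl
      | succ m ih =>
        rw [pow_succ]
        change (g ^ m) (g z) = z
        rw [hgz, ih]
    rw [h3, map_mul, ← hgm]
    change (g ^ m) (s ((τ ^ m)⁻¹ * σ) z) = z
    rw [hz _ h1, h4]
  -- constants
  have hfixk : ∀ c : A, (∀ σ, s σ (ι c) = ι c) → ∃ c0 : k, algebraMap k A c0 = c := by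
    intro c hc
    have h1 : ∀ σ : A ≃ₐ[k] A, σ c = c := by
      intro σ
      have h2 := hc σ
      rw [hι] at h2
      exact ι.injective h2
    exact IntermediateField.mem_bot.1 ((InfiniteGalois.mem_bot_iff_fixed c).2 h1)
  have hfixE : ∀ c : A, ι c ∈ fixT s T → ∃ c0 : E, i0 c0 = c := by
    intro c hc
    have h1 : c ∈ IntermediateField.fixedField T := by
      rw [IntermediateField.mem_fixedField_iff]
      intro σ hσ
      have h2 := hc σ hσ
      rw [hι] at h2
      exact ι.injective h2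
    rw [hT, InfiniteGalois.fixedField_fixingSubgroup] at h1
    obtain ⟨c0, hc0⟩ := h1
    exact ⟨c0, hc0⟩
  -- the norm
  set N : M → M := fun z => ∏ m ∈ range d, (g ^ m) z with hN
  have hNmul : ∀ z w, N (z * w) = N z * N w := by
    intro z w
    rw [hN]
    simp only [map_mul]
    exact Finset.prod_mul_distrib
  have hN1 : N 1 = 1 := by
    rw [hN]
    simp only [map_one, Finset.prod_const_one]
  have hNpow : ∀ z (m : ℕ), N (z ^ m) = N z ^ m := by
    intro z m
    rw [hN]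
    simp only [map_pow]
    rw [Finset.prod_pow]
  have hNfix : ∀ z, g z = z → N z = z ^ d := by
    intro z hz
    have h4 : ∀ m : ℕ, (g ^ m) z = z := by
      intro m
      induction m with
      | zero => rfl
      | succ m ih =>
        rw [pow_succ]
        change (g ^ m) (g z) = z
        rw [hz, ih]
    rw [hN]
    simp only [h4]
    rw [Finset.prod_const, Finset.card_range]
  have hNι : ∀ x : E, N (ι (i0 x)) = ι (algebraMap k A (Algebra.norm k x)) := by
    intro x
    have h1 : ι (algebraMap k A (Algebra.norm k x)) = ∏ i : E →ₐ[k] A, ι (i x) := by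
      rw [Algebra.norm_eq_prod_embeddings k A x, map_prod]
      refine Finset.prod_congr ?_ fun _ _ => rfl
      ext i
      simp only [Finset.mem_univ]
    rw [h1, hprodemb]
    refine Finset.prod_congr rfl fun m _ => ?_
    rw [hgm_ι]
    rfl
  have hshift : ∀ z, ∏ m ∈ range d, (g ^ (m + 1)) z = g (N z) := by
    intro z
    rw [hN, map_prod]
    refine Finset.prod_congr rfl fun m _ => ?_
    rw [pow_succ']
    rfl
  have hgN : ∀ z ∈ fixT s T, z ≠ 0 → g (N z) = N z := by
    intro z hz hz0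
    have h1 := Finset.prod_range_succ' (fun m => (g ^ m) z) d
    have h2 := Finset.prod_range_succ (fun m => (g ^ m) z) d
    rw [h1, hshift, hgd z hz] at h2
    change g (N z) * z = N z * z at h2
    exact mul_right_cancel₀ hz0 h2
  have hNg : ∀ z, N (g z) = g (N z) := by
    intro z
    rw [← hshift]
    refine Finset.prod_congr rfl fun m _ => ?_
    rw [pow_succ]
    rfl
  have hNT : ∀ z ∈ fixT s T, N z ∈ fixT s T := by
    intro z hz
    exact prod_mem fun m _ => hgmT m z hz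
  -- the function
  set lm : M := lam (emb 0) with hlm
  have hgmlam : ∀ m : ℕ, (g ^ m) lm = lam (emb m) := by
    intro m
    rw [hlm, hgm, hs]
    congr 1
    ext x
    exact hτm m x
  have hlmT : lm ∈ fixT s T := by
    intro σ hσ
    rw [hlm, hs]
    congr 1
    ext x
    exact (hTmem σ).1 hσ x
  have hlm0 : lm ≠ 0 := hlam0 _
  have hglm0 : g lm ≠ 0 := (_root_.map_ne_zero g).2 hlm0
  have hNlm : N lm = ι (algebraMap k A a) * y ^ n := by
    rw [← hprod, hprodemb]
    refine Finset.prod_congr rfl fun m _ => ?_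
    rw [hgmlam]
  have hNlm0 : N lm ≠ 0 := Finset.prod_ne_zero_iff.2 fun m _ => (_root_.map_ne_zero _).2 hlm0
  set μ : M := lm / g lm with hμ
  have hμ0 : μ ≠ 0 := div_ne_zero hlm0 hglm0
  have hμT : μ ∈ fixT s T := div_mem hlmT (hgT _ hlmT)
  have hNμ : N μ = 1 := by
    have h1 : μ * g lm = lm := div_mul_cancel₀ _ hglm0
    have h2 := hNmul μ (g lm)
    rw [h1, hNg, hgN lm hlmT hlm0] at h2
    exact (mul_eq_right₀ hNlm0).1 h2.symm
  -- the root
  obtain ⟨w, hw⟩ := hroot (emb 0) (emb 1)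
  have hw' : w ^ n = μ := by
    rw [hw, hμ]
    congr 1
    have h1 := hgmlam 1
    rw [pow_one] at h1
    exact h1.symm
  have hw0 : w ≠ 0 := by
    rintro rfl
    rw [zero_pow hn.ne'] at hw'
    exact hμ0 hw'.symm
  obtain ⟨L, hL1, hL2⟩ := cont w
  obtain ⟨β0, hβ0, hβT'⟩ := exists_fixed_multiple s ι hι T w hw0 (by
    intro σ hσ
    have h1 : (s σ w / w) ^ n = ι 1 := by
      rw [div_pow, ← map_pow, hw', hμT σ hσ, div_self hμ0, map_one]
    obtain ⟨ζ, hζ⟩ := root_const ι hn h1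
    exact ⟨ζ, by rw [hζ, div_mul_cancel₀ _ hw0]⟩) L hL2
  set β : M := ι β0 * w with hβ
  have hβT : β ∈ fixT s T := hβT'
  have hιβ0 : ι β0 ≠ 0 := (_root_.map_ne_zero ι).2 hβ0
  have hβne : β ≠ 0 := mul_ne_zero hιβ0 hw0
  have hμβ : μ * ι β0 ^ n = β ^ n := by
    rw [hβ, mul_pow, hw', mul_comm]
  obtain ⟨c', hc'⟩ := hfixE (β0 ^ n)⁻¹ (by
    have h1 : ι (β0 ^ n)⁻¹ = μ / β ^ n := by
      rw [map_inv₀, map_pow, ← hμβ, div_mul_eq_div_div, div_self hμ0, one_div]
    rw [h1]
    exact div_mem hμT (pow_mem hβT n))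
  have hμc : μ = ι (i0 c') * β ^ n := by
    rw [hc', map_inv₀, map_pow, ← hμβ, mul_comm, mul_assoc, mul_inv_cancel₀ (pow_ne_zero n hιβ0),
      mul_one]
  have hc'0 : c' ≠ 0 := by
    rintro rfl
    rw [map_zero, map_zero, zero_mul] at hμc
    exact hμ0 hμc
  -- the number `b`
  have hNβ : N β ^ n * ι (algebraMap k A (Algebra.norm k c')) = 1 := by
    rw [← hNι, ← hNpow, ← hNmul, mul_comm, ← hμc, hNμ]
  have hnc' : Algebra.norm k c' ≠ 0 := Algebra.norm_ne_zero_iff.2 hc'0
  have hincl : ∀ c : k, c ≠ 0 → ι (algebraMap k A c) ≠ 0 := fun c hc =>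
    (_root_.map_ne_zero ι).2 ((_root_.map_ne_zero _).2 hc)
  obtain ⟨b', hb'⟩ := root_const ι hn (z := N β) (c := algebraMap k A (Algebra.norm k c')⁻¹) (by
    rw [map_inv₀, map_inv₀]
    exact eq_inv_of_mul_eq_one_left hNβ)
  obtain ⟨b, hb⟩ := hfixk b' (by
    rw [hb']
    exact hfixall _ (hNT β hβT) (hgN β hβT hβne))
  have hNβb : N β = ι (algebraMap k A b) := by rw [hb, hb']
  have hNβ0 : N β ≠ 0 := Finset.prod_ne_zero_iff.2 fun m _ => (_root_.map_ne_zero _).2 hβne
  have hb0 : b ≠ 0 := by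
    rintro rfl
    rw [map_zero, map_zero] at hNβb
    exact hNβ0 hNβb
  have hkey : b ^ n * Algebra.norm k c' = 1 := by
    apply (algebraMap k A).injective
    apply ι.injective
    rw [map_mul, map_mul, map_pow, map_pow, ← hNβb, hNβ, map_one, map_one]
  -- Hilbert 90
  obtain ⟨e, he⟩ := groupCohomology.exists_div_of_norm_eq_one hg0
    (x := c' ^ r * algebraMap k E b ^ t) (by
      rw [map_mul, map_pow, map_pow, Algebra.norm_algebraMap, ← hd, ← pow_mul, ← hnr, pow_mul,
        ← mul_pow, mul_comm, hkey, one_pow])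
  have hge0 : g0 (e : E) ≠ 0 := (_root_.map_ne_zero g0).2 e.ne_zero
  have he' : (e : E) = c' ^ r * algebraMap k E b ^ t * g0 e := by
    rw [← he, div_mul_cancel₀ _ hge0]
  have hi0b : i0 (algebraMap k E b) = algebraMap k A b := i0.commutes b
  have heι : ι (i0 e) = ι (i0 c') ^ r * ι (algebraMap k A b) ^ t * ι (i0 (g0 e)) := by
    conv_lhs => rw [he']
    rw [map_mul, map_mul, map_mul, map_mul, map_pow, map_pow, map_pow, map_pow, hi0b]
  -- the element `γ`
  set P : ℕ → M := fun j => ∏ i ∈ range j, (g ^ i) β with hP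
  have hPsucc : ∀ j, P (j + 1) = g (P j) * β := by
    intro j
    rw [hP]
    simp only
    rw [Finset.prod_range_succ', map_prod]
    refine congrArg₂ (· * ·) (Finset.prod_congr rfl fun i _ => ?_) rfl
    rw [pow_succ']
    rfl
  have hP0 : P 0 = 1 := rfl
  have hPd : P d = N β := rfl
  have hPne : ∀ j, P j ≠ 0 := fun j =>
    Finset.prod_ne_zero_iff.2 fun m _ => (_root_.map_ne_zero _).2 hβne
  have hPT : ∀ j, P j ∈ fixT s T := fun j => prod_mem fun i _ => hgmT i β hβT
  set γ : M := ∏ j ∈ range d, P j with hγ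
  have hγ0 : γ ≠ 0 := Finset.prod_ne_zero_iff.2 fun m _ => hPne m
  have hγT : γ ∈ fixT s T := prod_mem fun j _ => hPT j
  have hgγ : g γ * β ^ d = γ * ι (algebraMap k A b) := by
    have h1 : g γ * β ^ d = ∏ j ∈ range d, P (j + 1) := by
      simp only [hPsucc]
      rw [Finset.prod_mul_distrib, Finset.prod_const, Finset.card_range, hγ, map_prod]
    have h2 := Finset.prod_range_succ' P d
    have h3 := Finset.prod_range_succ P d
    rw [h2, hP0, mul_one, hPd, hNβb] at h3
    rw [h1, h3]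
  have hNgβ : ∀ j : ℕ, N ((g ^ j) β) = ι (algebraMap k A b) := by
    intro j
    induction j with
    | zero => exact hNβb
    | succ j ih =>
      rw [pow_succ']
      change N (g ((g ^ j) β)) = _
      rw [hNg, ih]
      exact hι_const τ b
  have hNP : ∀ j : ℕ, N (P j) = ι (algebraMap k A b) ^ j := by
    intro j
    induction j with
    | zero => rw [hP0, hN1, pow_zero]
    | succ j ih =>
      have h1 : P (j + 1) = P j * (g ^ j) β := Finset.prod_range_succ _ _
      rw [h1, hNmul, ih, hNgβ, pow_succ]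
  have hNprod : ∀ (f : ℕ → M) (j : ℕ), N (∏ i ∈ range j, f i) = ∏ i ∈ range j, N (f i) := by
    intro f j
    induction j with
    | zero => rw [Finset.prod_range_zero, Finset.prod_range_zero, hN1]
    | succ j ih => rw [Finset.prod_range_succ, Finset.prod_range_succ, hNmul, ih]
  have hNγ : N γ = ι (algebraMap k A b) ^ (∑ j ∈ range d, j) := by
    rw [hγ, hNprod]
    simp only [hNP]
    rw [Finset.prod_pow_eq_pow_sum]
  -- the invariant function
  have hιe0 : ι (i0 e) ≠ 0 := (_root_.map_ne_zero ι).2 ((_root_.map_ne_zero i0).2 e.ne_zero)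
  have hden : ι (i0 e) * γ ^ t ≠ 0 := mul_ne_zero hιe0 (pow_ne_zero _ hγ0)
  set R : M := lm ^ r / (ι (i0 e) * γ ^ t) with hR
  have hRmul : R * (ι (i0 e) * γ ^ t) = lm ^ r := div_mul_cancel₀ _ hden
  have hRT : R ∈ fixT s T := div_mem (pow_mem hlmT r) (mul_mem (hi0T e) (pow_mem hγT t))
  have hgR : g R = R := by
    have h1 : g R * (ι (i0 (g0 e)) * g γ ^ t) = g lm ^ r := by
      rw [← hg_ι, ← map_pow, ← map_pow, ← map_mul, ← map_mul, hRmul]
    have h2 : lm = g lm * (ι (i0 c') * β ^ n) := by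
      rw [← hμc, hμ, mul_div_cancel₀ _ hglm0]
    have h3 : g γ ^ t * β ^ (n * r) = γ ^ t * ι (algebraMap k A b) ^ t := by
      rw [hnr, pow_mul, ← mul_pow, hgγ, mul_pow]
    have hge0' : ι (i0 (g0 e)) ≠ 0 := (_root_.map_ne_zero ι).2 ((_root_.map_ne_zero i0).2 hge0)
    have hgγ0 : g γ ≠ 0 := (_root_.map_ne_zero g).2 hγ0
    have hc0 : ι (i0 c') ^ r ≠ 0 := pow_ne_zero _ ((_root_.map_ne_zero ι).2 ((_root_.map_ne_zero i0).2 hc'0))
    have h4 : R * (ι (i0 e) * γ ^ t) = g R * (ι (i0 (g0 e)) * g γ ^ t) *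
        (ι (i0 c') ^ r * β ^ (n * r)) := by
      rw [hRmul, h1]
      conv_lhs => rw [h2]
      rw [mul_pow, mul_pow, ← pow_mul]
    have h5 : g R * (ι (i0 (g0 e)) * g γ ^ t) * (ι (i0 c') ^ r * β ^ (n * r)) =
        g R * (ι (i0 e) * γ ^ t) := by
      rw [heι]
      calc g R * (ι (i0 (g0 e)) * g γ ^ t) * (ι (i0 c') ^ r * β ^ (n * r))
          = g R * ι (i0 (g0 e)) * ι (i0 c') ^ r * (g γ ^ t * β ^ (n * r)) := by ring
        _ = g R * ι (i0 (g0 e)) * ι (i0 c') ^ r * (γ ^ t * ι (algebraMap k A b) ^ t) := by rw [h3]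
        _ = _ := by ring
    rw [h5] at h4
    exact (mul_right_cancel₀ hden h4).symm
  have hRall := hfixall R hRT hgR
  have hR0 : R ≠ 0 := div_ne_zero (pow_ne_zero _ hlm0) hden
  -- norms
  have hfinal : (ι (algebraMap k A a) * y ^ n) ^ r = R ^ d *
      (ι (algebraMap k A (Algebra.norm k (e : E))) *
        ι (algebraMap k A b) ^ (t * ∑ j ∈ range d, j)) := by
    rw [← hNlm, ← hNpow, ← hRmul, hNmul, hNmul, hNpow, hNγ, hNι, hNfix R hgR, ← pow_mul,
      mul_comm t]
  set C : k := Algebra.norm k (e : E) * b ^ (t * ∑ j ∈ range d, j) with hC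
  have hC0 : C ≠ 0 := mul_ne_zero (Algebra.norm_ne_zero_iff.2 e.ne_zero) (pow_ne_zero _ hb0)
  have hιC : ι (algebraMap k A C) = ι (algebraMap k A (Algebra.norm k (e : E))) *
        ι (algebraMap k A b) ^ (t * ∑ j ∈ range d, j) := by
    rw [hC, map_mul, map_mul, map_pow, map_pow]
  have hyt : y ^ t ≠ 0 := pow_ne_zero _ hy0
  have hQ : (R / y ^ t) ^ d = ι (algebraMap k A (a ^ r / C)) := by
    rw [map_div₀, map_div₀, hιC, div_pow, div_eq_div_iff (pow_ne_zero _ hyt)
      (by rw [← hιC]; exact hincl C hC0), ← hfinal, mul_pow, map_pow, map_pow, ← pow_mul,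
      ← pow_mul, hnr, mul_comm d t]
  obtain ⟨κ', hκ'⟩ := root_const ι hdpos hQ
  obtain ⟨κ0, hκ0⟩ := hfixk κ' (by
    intro σ
    rw [hκ', map_div₀, map_pow, hRall σ, hy σ])
  have hκ : κ0 ^ d = a ^ r / C := by
    apply (algebraMap k A).injective
    apply ι.injective
    rw [← hQ, map_pow, map_pow, hκ0, hκ']
  have hκ00 : κ0 ≠ 0 := by
    rintro rfl
    rw [map_zero] at hκ0
    rw [← hκ0, map_zero] at hκ'
    exact div_ne_zero hR0 hyt hκ'.symm
  refine ⟨e * algebraMap k E κ0, b, mul_ne_zero e.ne_zero ((_root_.map_ne_zero _).2 hκ00), hb0, ?_⟩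
  rw [map_mul, Algebra.norm_algebraMap, ← hd, hκ, mul_assoc, mul_comm (a ^ r / C), ← mul_assoc,
    ← hC, mul_div_cancel₀ _ hC0]

end main

end Pool.Agent.N999.CY
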