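import Pool.Agent.N999.CY.Gen

/-!
# Sections over finite extensions: the compositum with a cyclic extension
-/

set_option autoImplicit false
set_option maxHeartbeats 1000000

namespace Pool.Agent.N999.CY

open Pool.Agent.W620.SC Finset IntermediateField

/-! ### Families of functions indexed by a set with a map to the embeddings -/

theorem core2 {k E : Type} {A M : Type*} [Field k] [Field E] [Field A] [Field M] [Algebra k A]
    [Algebra k E] [CharZero k] [IsAlgClosed A] [Algebra.IsAlgebraic k A] [FiniteDimensional k E]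
    [IsGalois k E] [IsCyclic (E ≃ₐ[k] E)] (s : (A ≃ₐ[k] A) →* RingAut M) (ι : A →+* M)
    (hι : ∀ σ a, s σ (ι a) = ι (σ a))
    (cont : ∀ w : M, ∃ L : IntermediateField k A, FiniteDimensional k L ∧
      ∀ σ ∈ L.fixingSubgroup, s σ w = w)
    (a : k) (y : M) (hy0 : y ≠ 0) (hy : ∀ σ, s σ y = y) {X : Type*} [Fintype X]
    (act : (A ≃ₐ[k] A) → X → X) (hact : ∀ σ, Function.Bijective (act σ)) (lam : X → M)
    (hlam0 : ∀ i, lam i ≠ 0) (hs : ∀ (σ : A ≃ₐ[k] A) x, s σ (lam x) = lam (act σ x))
    (c : X → (E →ₐ[k] A))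
    (hc : ∀ (σ : A ≃ₐ[k] A) x, c (act σ x) = (σ : A →ₐ[k] A).comp (c x))
    (n r t : ℕ) (hn : 0 < n) (hnr : n * r = Module.finrank k E * t)
    (hprod : ∏ i, lam i = ι (algebraMap k A a) * y ^ n)
    (hroot : ∀ i j, ∃ w : M, w ^ n = lam i / lam j) :
    ∃ (e : E) (b : k), e ≠ 0 ∧ b ≠ 0 ∧
      a ^ r = Algebra.norm k e * b ^ (t * ∑ j ∈ range (Module.finrank k E), j) := by
  classical
  have hacl : IsAlgClosure k A := ⟨‹_›, ‹_›⟩
  have hnorm : Normal k A := IsAlgClosure.normal k A
  set lam' : (E →ₐ[k] A) → M := fun i => ∏ x ∈ univ.filter (fun x => c x = i), lam x with hlam'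
  have hs' : ∀ (σ : A ≃ₐ[k] A) (i : E →ₐ[k] A),
      ∏ x ∈ univ.filter (fun x => c x = i), lam (act σ x) =
        lam' ((σ : A →ₐ[k] A).comp i) := by
    intro σ i
    rw [hlam']
    refine Finset.prod_nbij (act σ) ?_ ?_ ?_ ?_
    · intro x hx
      rw [Finset.mem_filter] at hx ⊢
      exact ⟨Finset.mem_univ _, by rw [hc, hx.2]⟩
    · exact (hact σ).1.injOn
    · intro x' hx'
      rw [Finset.mem_coe, Finset.mem_filter] at hx'
      obtain ⟨x, rfl⟩ := (hact σ).2 x'
      refine ⟨x, ?_, rfl⟩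
      rw [Finset.mem_coe, Finset.mem_filter]
      refine ⟨Finset.mem_univ _, ?_⟩
      have h1 := hx'.2
      rw [hc] at h1
      ext z
      exact σ.injective (DFunLike.congr_fun h1 z)
    · intro x _
      rfl
  refine core s ι hι cont a y hy0 hy lam' (fun i => Finset.prod_ne_zero_iff.2 fun x _ => hlam0 x)
    ?_ n r t hn hnr ?_ ?_
  · intro σ i
    rw [← hs', hlam']
    simp only
    rw [map_prod]
    exact Finset.prod_congr rfl fun x _ => hs σ x
  · rw [← hprod, hlam']
    exact Finset.prod_fiberwise _ _ _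
  · intro i i'
    obtain ⟨σ, hσ⟩ : ∃ σ : A ≃ₐ[k] A, (σ : A →ₐ[k] A).comp i = i' := by
      let _ : Algebra E A := i.toRingHom.toAlgebra
      have : IsScalarTower k E A := IsScalarTower.of_algebraMap_eq fun x => (i.commutes x).symm
      refine ⟨AlgEquiv.ofBijective (i'.liftNormal A) (AlgHom.normal_bijective k _ _ _), ?_⟩
      ext z
      exact i'.liftNormal_commutes A z
    have h1 : ∀ x, ∃ w : M, w ^ n = lam x / lam (act σ x) := fun x => hroot _ _
    choose w hw using h1
    refine ⟨∏ x ∈ univ.filter (fun x => c x = i), w x, ?_⟩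
    rw [← hσ, ← hs', ← Finset.prod_pow, hlam']
    simp only [hw]
    rw [Finset.prod_div_distrib]

/-! ### The compositum -/

section ext

variable {k L E A : Type} [Field k] [Field L] [Field E] [Field A] [Algebra k L] [Algebra L A]
  [Algebra k A] [IsScalarTower k L A] [Algebra k E] [CharZero k] [FiniteDimensional k E]
  [IsGalois k E] [IsAlgClosed A]

/-- embeddings of a Galois extension -/
theorem exists_comp (i0 i : E →ₐ[k] A) :
    ∃ γ : E ≃ₐ[k] E, i = i0.comp (γ : E →ₐ[k] E) := by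
  have h1 : Function.Bijective (fun γ : E ≃ₐ[k] E => i0.comp (γ : E →ₐ[k] E)) := by
    rw [Nat.bijective_iff_injective_and_card]
    refine ⟨?_, ?_⟩
    · intro γ γ' h
      ext z
      exact i0.injective (DFunLike.congr_fun h z)
    · rw [IsGalois.card_aut_eq_finrank, Nat.card_eq_fintype_card, AlgHom.card k E A]
  obtain ⟨γ, h⟩ := h1.2 i
  exact ⟨γ, h.symm⟩

/-- the compositum with a cyclic extension -/
theorem exists_ext [IsCyclic (E ≃ₐ[k] E)] [Algebra.IsAlgebraic L A] [FiniteDimensional k L] :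
    ∃ E' : IntermediateField L A, FiniteDimensional L E' ∧ IsGalois L E' ∧
      IsCyclic (E' ≃ₐ[L] E') ∧ Module.finrank L E' ∣ Module.finrank k E ∧
      (∃ c : (E →ₐ[k] A) → (E' →ₐ[L] A), ∀ (σ : A ≃ₐ[L] A) (i : E →ₐ[k] A),
        c (((σ : A →ₐ[L] A).restrictScalars k).comp i) = (σ : A →ₐ[L] A).comp (c i)) ∧
      ∀ e' : E', ∃ e : E, Algebra.norm k e = Algebra.norm k (Algebra.norm L e') := by
  classical
  have hcL : CharZero L := charZero_of_injective_algebraMap (algebraMap k L).injective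
  have hacl : IsAlgClosure L A := ⟨‹_›, ‹_›⟩
  have hnormA : Normal L A := IsAlgClosure.normal L A
  obtain ⟨θ, hθ⟩ := Field.exists_primitive_element k E
  let i0 : E →ₐ[k] A := IsAlgClosed.lift
  set E' : IntermediateField L A := L⟮i0 θ⟯ with hE'
  have hint : IsIntegral L (i0 θ) := Algebra.IsIntegral.isIntegral _
  have hfd : FiniteDimensional L E' := adjoin.finiteDimensional hint
  have hrange : ∀ z : E, i0 z ∈ E' := by
    intro z
    have h1 : z ∈ k⟮θ⟯ := by rw [hθ]; exact mem_top
    have h2 : (k⟮θ⟯).map i0 ≤ E'.restrictScalars k := by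
      rw [adjoin_map, adjoin_le_iff]
      rintro _ ⟨_, rfl, rfl⟩
      exact mem_adjoin_simple_self L _
    exact h2 ⟨z, h1, rfl⟩
  have hmem : ∀ (σ : A ≃ₐ[L] A) (z : E), σ (i0 z) ∈ E' := by
    intro σ z
    obtain ⟨γ, hγ⟩ := exists_comp i0 (((σ : A →ₐ[L] A).restrictScalars k).comp i0)
    have h1 : σ (i0 z) = i0 (γ z) := DFunLike.congr_fun hγ z
    rw [h1]
    exact hrange _
  have hnorm : Normal L E' := by
    rw [normal_iff_forall_map_le']
    intro σ
    rw [hE', adjoin_map, adjoin_le_iff]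
    rintro _ ⟨_, rfl, rfl⟩
    exact hmem σ θ
  have hgal : IsGalois L E' := ⟨⟩
  let j : E →ₐ[k] E' := i0.codRestrict ((E'.restrictScalars k).toSubalgebra) hrange
  have hj : ∀ z, ((j z : E') : A) = i0 z := fun z => rfl
  have hjinj : Function.Injective j := j.injective
  -- two homomorphisms which agree on `θ`
  have hext : ∀ (B : Type) [Field B] [Algebra L B] (φ ψ : E' →ₐ[L] B), φ (j θ) = ψ (j θ) →
      φ = ψ := by
    intro B _ _ φ ψ h
    apply (adjoin.powerBasis hint).algHom_ext
    rw [adjoin.powerBasis_gen]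
    exact h
  -- the Galois group
  have hγ : ∀ τ : E' ≃ₐ[L] E', ∃ γ : E ≃ₐ[k] E, ∀ z, τ (j z) = j (γ z) := by
    intro τ
    obtain ⟨γ, hγ⟩ := exists_comp i0 ((E'.val.restrictScalars k).comp
      (((τ : E' →ₐ[L] E').restrictScalars k).comp j))
    refine ⟨γ, fun z => Subtype.ext ?_⟩
    exact DFunLike.congr_fun hγ z
  choose γ hγ using hγ
  have hmul : ∀ τ τ', γ (τ * τ') = γ τ * γ τ' := by
    intro τ τ'
    ext z
    apply hjinj
    rw [← hγ, AlgEquiv.mul_apply, AlgEquiv.mul_apply, hγ, hγ]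
  let f : (E' ≃ₐ[L] E') →* (E ≃ₐ[k] E) := MonoidHom.mk' γ hmul
  have hf : Function.Injective f := by
    intro τ τ' h
    have h1 : (τ : E' →ₐ[L] E') = (τ' : E' →ₐ[L] E') := by
      apply hext
      change τ (j θ) = τ' (j θ)
      rw [hγ, hγ]
      exact congrArg (fun g : E ≃ₐ[k] E => j (g θ)) h
    ext z
    exact congrArg _ (DFunLike.congr_fun h1 z)
  have hcyc : IsCyclic (E' ≃ₐ[L] E') := isCyclic_of_injective f hf
  have hdvd : Module.finrank L E' ∣ Module.finrank k E := by
    have h1 := Subgroup.card_dvd_of_injective f hf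
    rwa [IsGalois.card_aut_eq_finrank, IsGalois.card_aut_eq_finrank] at h1
  refine ⟨E', hfd, hgal, hcyc, hdvd, ?_, ?_⟩
  · -- the equivariant map
    let H : Subgroup (E ≃ₐ[k] E) :=
      { carrier := {g | ∃ σ : A ≃ₐ[L] A, ∀ z, σ (i0 z) = i0 (g z)}
        mul_mem' := by
          rintro g g' ⟨σ, hσ⟩ ⟨σ', hσ'⟩
          refine ⟨σ * σ', fun z => ?_⟩
          rw [AlgEquiv.mul_apply, AlgEquiv.mul_apply, hσ', hσ]
        one_mem' := ⟨1, fun z => rfl⟩
        inv_mem' := by
          rintro g ⟨σ, hσ⟩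
          refine ⟨σ⁻¹, fun z => ?_⟩
          apply σ.injective
          rw [hσ]
          have h1 : g (g⁻¹ z) = z := g.apply_symm_apply z
          have h2 : σ (σ⁻¹ (i0 z)) = i0 z := σ.apply_symm_apply _
          rw [h1, h2] }
    have hq : ∀ i : E →ₐ[k] A, ∃ g : E ≃ₐ[k] E, i = i0.comp (g : E →ₐ[k] E) := exists_comp i0
    choose q hq using hq
    let rep : (E ≃ₐ[k] E) → (E ≃ₐ[k] E) := fun g =>
      (Quotient.mk (QuotientGroup.rightRel H) g).out
    have hrep1 : ∀ g, g * (rep g)⁻¹ ∈ H := by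
      intro g
      have h1 : (QuotientGroup.rightRel H) (rep g) g := Quotient.mk_out (s := QuotientGroup.rightRel H) g
      exact QuotientGroup.rightRel_apply.1 h1
    have hrep2 : ∀ g, ∀ h ∈ H, rep (h * g) = rep g := by
      intro g h hh
      have h1 : Quotient.mk (QuotientGroup.rightRel H) (h * g) =
          Quotient.mk (QuotientGroup.rightRel H) g := by
        apply Quotient.sound
        apply QuotientGroup.rightRel_apply.2
        have h2 : g * (h * g)⁻¹ = h⁻¹ := by group
        rw [h2]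
        exact H.inv_mem hh
      change (Quotient.mk (QuotientGroup.rightRel H) (h * g)).out = _
      rw [h1]
    choose lft hlft using fun i : E →ₐ[k] A => hrep1 (q i)
    refine ⟨fun i => (lft i : A →ₐ[L] A).comp E'.val, ?_⟩
    intro σ i
    apply hext
    obtain ⟨h, hh⟩ := exists_comp i0 (((σ : A →ₐ[L] A).restrictScalars k).comp i0)
    have hσ : ∀ z, σ (i0 z) = i0 (h z) := fun z => DFunLike.congr_fun hh z
    have hhH : h ∈ H := ⟨σ, hσ⟩
    have hqσ : q (((σ : A →ₐ[L] A).restrictScalars k).comp i) = h * q i := by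
      ext z
      apply i0.injective
      have h1 := DFunLike.congr_fun (hq (((σ : A →ₐ[L] A).restrictScalars k).comp i)) z
      have h2 : i z = i0 (q i z) := DFunLike.congr_fun (hq i) z
      change i0 (q (((σ : A →ₐ[L] A).restrictScalars k).comp i) z) = i0 (h (q i z))
      rw [← hσ, ← h2]
      exact h1.symm
    change lft (((σ : A →ₐ[L] A).restrictScalars k).comp i) (i0 θ) = σ (lft i (i0 θ))
    rw [hlft, hlft, hσ, hqσ, hrep2 _ h hhH, mul_assoc, AlgEquiv.mul_apply]
  · intro e'
    let _ : Algebra E E' := j.toRingHom.toAlgebra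
    have : IsScalarTower k E E' := IsScalarTower.of_algebraMap_eq fun x => (j.commutes x).symm
    have : FiniteDimensional k E' := FiniteDimensional.trans k L E'
    have : FiniteDimensional E E' := FiniteDimensional.right k E E'
    refine ⟨Algebra.norm E e', ?_⟩
    rw [Algebra.norm_norm, Algebra.norm_norm]

end ext

end Pool.Agent.N999.CY
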