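import Pool.Agent.N999.CY.Core
import Pool.Agent.TH377.NC.Gal

/-!
# Sections and norms from cyclic extensions: functions on curves
-/

set_option autoImplicit false
set_option maxHeartbeats 1000000

namespace Pool.Agent.N999.CY

open Pool.Agent.W620.SC Pool.Agent.W623.SecC Pool.Agent.TH120.Sec Polynomial IntermediateField
open Finset

section gen

variable {k E F Ω : Type} [Field k] [Field E] [Field F] [Field Ω] [Algebra k F] [Algebra F Ω]
  [Algebra k Ω] [IsScalarTower k F Ω] [CharZero k] [IsAlgClosed Ω] [Algebra.IsAlgebraic F Ω]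
  [Algebra k E] [FiniteDimensional k E] [IsGalois k E] [IsCyclic (E ≃ₐ[k] E)]

theorem gen [Fintype (E →ₐ[k] algebraicClosure k Ω)]
    (U : Set (ValuationSubring F)) (hU : ∀ O ∈ U, ∀ c : k, algebraMap k F c ∈ O)
    (G : GSection k F Ω U) {J : Type} [Fintype J] (α : J → E) (x : J → F) (y : F) (hy : y ≠ 0)
    (a : k) (ha : a ≠ 0) (n r t : ℕ) (hn : 0 < n) (hnr : n * r = Module.finrank k E * t)
    (hprod : ∏ i : E →ₐ[k] algebraicClosure k Ω,
      ∑ j, algebraMap (algebraicClosure k Ω) Ω (i (α j)) * algebraMap F Ω (x j) =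
        algebraMap k Ω a * algebraMap F Ω y ^ n)
    (hloc : ∀ i i' : E →ₐ[k] algebraicClosure k Ω, ∀ W : ValuationSubring Ω,
      W.comap (algebraMap F Ω) ∈ U → ∃ t ∈ unramified F Ω U, t ≠ 0 ∧
        (∑ j, algebraMap (algebraicClosure k Ω) Ω (i (α j)) * algebraMap F Ω (x j)) /
          (∑ j, algebraMap (algebraicClosure k Ω) Ω (i' (α j)) * algebraMap F Ω (x j)) / t ^ n ∈ W ∧
        t ^ n / ((∑ j, algebraMap (algebraicClosure k Ω) Ω (i (α j)) * algebraMap F Ω (x j)) /
          (∑ j, algebraMap (algebraicClosure k Ω) Ω (i' (α j)) * algebraMap F Ω (x j))) ∈ W) :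
    ∃ (e : E) (b : k), e ≠ 0 ∧ b ≠ 0 ∧
      a ^ r = Algebra.norm k e * b ^ (t * ∑ j ∈ range (Module.finrank k E), j) := by
  have hac : IsAlgClosure k (algebraicClosure k Ω) := inferInstance
  have hA : IsAlgClosed (algebraicClosure k Ω) := hac.1
  set ι : algebraicClosure k Ω →+* unramified F Ω U := constHom hU with hι
  set lam : (E →ₐ[k] algebraicClosure k Ω) → unramified F Ω U := fun i =>
    ∑ j, ι (i (α j)) * algebraMap F (unramified F Ω U) (x j) with hlam
  have hval : ∀ i, algebraMap (unramified F Ω U) Ω (lam i) =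
      ∑ j, algebraMap (algebraicClosure k Ω) Ω (i (α j)) * algebraMap F Ω (x j) := by
    intro i
    rw [hlam, map_sum]
    exact Finset.sum_congr rfl fun l _ => map_mul (algebraMap (unramified F Ω U) Ω) _ _
  have hprod0 : ∏ i : E →ₐ[k] algebraicClosure k Ω,
      ∑ j, algebraMap (algebraicClosure k Ω) Ω (i (α j)) * algebraMap F Ω (x j) ≠ 0 := by
    rw [hprod]
    exact mul_ne_zero ((_root_.map_ne_zero _).2 ha) (pow_ne_zero _ ((_root_.map_ne_zero _).2 hy))
  have hlam0 : ∀ i, lam i ≠ 0 := by
    intro i h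
    have h1 := hval i
    rw [h, map_zero] at h1
    exact hprod0 (Finset.prod_eq_zero (Finset.mem_univ i) h1.symm)
  have hcont : ∀ w : unramified F Ω U, ∃ L : IntermediateField k (algebraicClosure k Ω),
      FiniteDimensional k L ∧ ∀ σ ∈ L.fixingSubgroup,
        ((toRingAutHom F (unramified F Ω U)).comp G.toHom) σ w = w := by
    intro w
    have h1 : {e : unramified F Ω U ≃ₐ[F] unramified F Ω U | e w = w} ∈
        nhds (1 : unramified F Ω U ≃ₐ[F] unramified F Ω U) := by
      rw [krullTopology_mem_nhds_one_iff]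
      refine ⟨F⟮w⟯, ?_, ?_⟩
      · exact adjoin.finiteDimensional (Algebra.IsIntegral.isIntegral _)
      · intro e he
        exact (mem_fixingSubgroup_iff _ _).1 he _ (mem_adjoin_simple_self F _)
    have h2 := G.cont.tendsto 1
    rw [map_one] at h2
    have h3 := h2 h1
    rw [Filter.mem_map, krullTopology_mem_nhds_one_iff] at h3
    obtain ⟨E, hE, hE'⟩ := h3
    exact ⟨E, hE, fun σ hσ => hE' hσ⟩
  have hιs : ∀ σ c, ((toRingAutHom F (unramified F Ω U)).comp G.toHom) σ (ι c) = ι (σ c) :=
    fun σ c => Subtype.ext (G.compat σ c (constHom hU c) rfl)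
  have hfix : ∀ (σ) (z : F), ((toRingAutHom F (unramified F Ω U)).comp G.toHom) σ
      (algebraMap F (unramified F Ω U) z) = algebraMap F (unramified F Ω U) z :=
    fun σ z => (G.toHom σ).commutes z
  refine core ((toRingAutHom F (unramified F Ω U)).comp G.toHom) ι hιs hcont a
    (algebraMap F (unramified F Ω U) y) ((_root_.map_ne_zero _).2 hy) (fun σ => hfix σ y) lam hlam0
    ?_ n r t hn hnr ?_ ?_
  · intro σ i
    rw [hlam]
    simp only
    rw [map_sum]
    refine Finset.sum_congr rfl fun j _ => ?_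
    rw [map_mul, hfix, hιs]
    rfl
  · apply (algebraMap (unramified F Ω U) Ω).injective
    rw [map_prod]
    simp only [hval]
    rw [hprod, map_mul, map_pow, ← IsScalarTower.algebraMap_apply F (unramified F Ω U) Ω]
    rfl
  · intro i i'
    refine exists_root_unramified (k := k) U hU hn _ ?_
    intro _ W hW
    have hv : ((lam i / lam i' : unramified F Ω U) : Ω) =
        (∑ j, algebraMap (algebraicClosure k Ω) Ω (i (α j)) * algebraMap F Ω (x j)) /
          (∑ j, algebraMap (algebraicClosure k Ω) Ω (i' (α j)) * algebraMap F Ω (x j)) := by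
      rw [← hval, ← hval]
      exact map_div₀ (algebraMap (unramified F Ω U) Ω) _ _
    rw [hv]
    exact hloc i i' W hW

end gen

/-- the conjugate functions vanish together -/
theorem conj_zero {k E F Ω : Type} [Field k] [Field E] [Field F] [Field Ω] [Algebra k F]
    [Algebra F Ω] [Algebra k Ω] [IsScalarTower k F Ω] [CharZero k] [IsAlgClosed Ω]
    [Algebra.IsAlgebraic F Ω] [Algebra k E] [FiniteDimensional k E]
    (U : Set (ValuationSubring F)) (hU : ∀ O ∈ U, ∀ c : k, algebraMap k F c ∈ O)
    (G : GSection k F Ω U) {J : Type} [Fintype J] (α : J → E) (x : J → F)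
    (i i' : E →ₐ[k] algebraicClosure k Ω)
    (h : ∑ j, algebraMap (algebraicClosure k Ω) Ω (i (α j)) * algebraMap F Ω (x j) = 0) :
    ∑ j, algebraMap (algebraicClosure k Ω) Ω (i' (α j)) * algebraMap F Ω (x j) = 0 := by
  have hac : IsAlgClosure k (algebraicClosure k Ω) := inferInstance
  have hnorm : Normal k (algebraicClosure k Ω) := IsAlgClosure.normal k _
  obtain ⟨σ, hσ⟩ : ∃ σ : algebraicClosure k Ω ≃ₐ[k] algebraicClosure k Ω, ∀ z, σ (i z) = i' z := by
    letI : Algebra E (algebraicClosure k Ω) := i.toRingHom.toAlgebra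
    haveI : IsScalarTower k E (algebraicClosure k Ω) :=
      IsScalarTower.of_algebraMap_eq fun x => (i.commutes x).symm
    exact ⟨AlgEquiv.ofBijective (i'.liftNormal (algebraicClosure k Ω))
      (AlgHom.normal_bijective k _ _ _), fun z => i'.liftNormal_commutes (algebraicClosure k Ω) z⟩
  set ι : algebraicClosure k Ω →+* unramified F Ω U := constHom hU with hι
  have hval : ∀ i : E →ₐ[k] algebraicClosure k Ω, algebraMap (unramified F Ω U) Ω
      (∑ j, ι (i (α j)) * algebraMap F (unramified F Ω U) (x j)) =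
      ∑ j, algebraMap (algebraicClosure k Ω) Ω (i (α j)) * algebraMap F Ω (x j) := by
    intro i
    rw [map_sum]
    exact Finset.sum_congr rfl fun l _ => map_mul (algebraMap (unramified F Ω U) Ω) _ _
  have h1 : ∑ j, ι (i (α j)) * algebraMap F (unramified F Ω U) (x j) = 0 := by
    apply (algebraMap (unramified F Ω U) Ω).injective
    rw [hval, h, map_zero]
  have h2 := congrArg (G.toHom σ) h1
  rw [map_sum, map_zero] at h2
  rw [← hval, ← map_zero (algebraMap (unramified F Ω U) Ω)]
  refine congrArg _ (Eq.trans ?_ h2)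
  refine Finset.sum_congr rfl fun j _ => ?_
  have h3 : G.toHom σ (ι (i (α j))) = ι (σ (i (α j))) :=
    Subtype.ext (G.compat σ _ (constHom hU _) rfl)
  rw [map_mul, (G.toHom σ).commutes, h3, hσ]

section arith

variable {k E : Type} [Field k] [Field E] [Algebra k E] [FiniteDimensional k E]

theorem sum_range_two (d : ℕ) : (∑ j ∈ range d, j) * 2 = d * (d - 1) :=
  Finset.sum_range_id_mul_two d

theorem norm_even {a : k} {r t : ℕ} (h : ∃ (e : E) (b : k), e ≠ 0 ∧ b ≠ 0 ∧
      a ^ r = Algebra.norm k e * b ^ (t * ∑ j ∈ range (Module.finrank k E), j))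
    (ht : Even (t * (Module.finrank k E - 1))) : ∃ e : E, Algebra.norm k e = a ^ r := by
  obtain ⟨e, b, -, -, h1⟩ := h
  obtain ⟨m, hm⟩ := ht
  have h2 : t * ∑ j ∈ range (Module.finrank k E), j = Module.finrank k E * m := by
    have h3 := sum_range_two (Module.finrank k E)
    have h4 : (t * ∑ j ∈ range (Module.finrank k E), j) * 2 = Module.finrank k E * m * 2 := by
      rw [mul_assoc, h3, ← mul_assoc, mul_comm t, mul_assoc, hm]
      ring
    exact Nat.eq_of_mul_eq_mul_right two_pos h4
  refine ⟨e * algebraMap k E (b ^ m), ?_⟩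
  rw [map_mul, Algebra.norm_algebraMap, h1, h2, ← pow_mul, mul_comm m]

theorem norm_double {a : k} {r t : ℕ} (h : ∃ (e : E) (b : k), e ≠ 0 ∧ b ≠ 0 ∧
      a ^ r = Algebra.norm k e * b ^ (t * ∑ j ∈ range (Module.finrank k E), j)) :
    ∃ e : E, Algebra.norm k e = a ^ (2 * r) := by
  obtain ⟨e, b, -, -, h1⟩ := h
  have h2 : (t * ∑ j ∈ range (Module.finrank k E), j) * 2 =
      t * (Module.finrank k E - 1) * Module.finrank k E := by
    rw [mul_assoc, sum_range_two]
    ring
  refine ⟨e ^ 2 * algebraMap k E (b ^ (t * (Module.finrank k E - 1))), ?_⟩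
  have h3 : a ^ (2 * r) = (a ^ r) ^ 2 := by rw [mul_comm, pow_mul]
  rw [map_mul, map_pow, Algebra.norm_algebraMap, h3, h1, mul_pow]
  congr 1
  rw [← pow_mul, ← pow_mul, h2]

end arith

end Pool.Agent.N999.CY
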