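import Pool.Agent.N999.CY.Ext

/-!
# Sections over finite extensions and norms from cyclic subextensions
-/

set_option autoImplicit false
set_option maxHeartbeats 1000000

namespace Pool.Agent.N999.CY

open Pool.Agent.W620.SC Pool.Agent.W623.SecC Pool.Agent.TH120.Sec Polynomial IntermediateField
open Finset

/-- the factor one or two -/
def fac (d t : ℕ) : ℕ := if Even (t * (d - 1)) then 1 else 2

section genL

variable {k E' E L F Ω : Type} [Field k] [Field E'] [Field E] [Field L] [Field F] [Field Ω]
  [CharZero k] [Algebra k E'] [Algebra E' E] [Algebra k E] [IsScalarTower k E' E]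
  [FiniteDimensional k E] [IsGalois k E'] [IsCyclic (E' ≃ₐ[k] E')]
  [Algebra k L] [FiniteDimensional k L] [Algebra L F] [Algebra F Ω] [Algebra L Ω]
  [IsScalarTower L F Ω] [Algebra k Ω] [IsScalarTower k L Ω] [IsAlgClosed Ω]
  [Algebra.IsAlgebraic F Ω]

theorem genL (U : Set (ValuationSubring F)) (hU : ∀ O ∈ U, ∀ c : L, algebraMap L F c ∈ O)
    (G : GSection L F Ω U) {J : Type} [Fintype J] (α : J → E) (x : J → F) (y : F) (hy : y ≠ 0)
    (a : k) (ha : a ≠ 0) (n r t : ℕ) (hn : 0 < n) (hnr : n * r = Module.finrank k E' * t)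
    (hprod : ∏ i : E →ₐ[k] algebraicClosure L Ω,
      ∑ j, algebraMap (algebraicClosure L Ω) Ω (i (α j)) * algebraMap F Ω (x j) =
        algebraMap k Ω a * algebraMap F Ω y ^ n)
    (hloc : ∀ i i' : E →ₐ[k] algebraicClosure L Ω, ∀ W : ValuationSubring Ω,
      W.comap (algebraMap F Ω) ∈ U → ∃ t ∈ unramified F Ω U, t ≠ 0 ∧
        (∑ j, algebraMap (algebraicClosure L Ω) Ω (i (α j)) * algebraMap F Ω (x j)) /
          (∑ j, algebraMap (algebraicClosure L Ω) Ω (i' (α j)) * algebraMap F Ω (x j)) / t ^ n ∈ W ∧
        t ^ n / ((∑ j, algebraMap (algebraicClosure L Ω) Ω (i (α j)) * algebraMap F Ω (x j)) /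
          (∑ j, algebraMap (algebraicClosure L Ω) Ω (i' (α j)) * algebraMap F Ω (x j))) ∈ W) :
    ∃ e : E', Algebra.norm k e = a ^ (fac (Module.finrank k E') t * r * Module.finrank k L) := by
  have hfdE' : FiniteDimensional k E' := FiniteDimensional.left k E' E
  have hcL : CharZero L := charZero_of_injective_algebraMap (algebraMap k L).injective
  have hac : IsAlgClosure L (algebraicClosure L Ω) := inferInstance
  have hA : IsAlgClosed (algebraicClosure L Ω) := hac.1
  obtain ⟨E'', hfd, hgal, hcyc, hdvd, ⟨c, hc⟩, hdesc⟩ := exists_ext (k := k) (L := L) (E := E')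
    (A := algebraicClosure L Ω)
  set ι : algebraicClosure L Ω →+* unramified F Ω U := constHom hU with hι
  set lam : (E →ₐ[k] algebraicClosure L Ω) → unramified F Ω U := fun i =>
    ∑ j, ι (i (α j)) * algebraMap F (unramified F Ω U) (x j) with hlam
  have hval : ∀ i, algebraMap (unramified F Ω U) Ω (lam i) =
      ∑ j, algebraMap (algebraicClosure L Ω) Ω (i (α j)) * algebraMap F Ω (x j) := by
    intro i
    rw [hlam, map_sum]
    exact Finset.sum_congr rfl fun l _ => map_mul (algebraMap (unramified F Ω U) Ω) _ _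
  have hprod0 : ∏ i : E →ₐ[k] algebraicClosure L Ω,
      ∑ j, algebraMap (algebraicClosure L Ω) Ω (i (α j)) * algebraMap F Ω (x j) ≠ 0 := by
    rw [hprod]
    exact mul_ne_zero ((_root_.map_ne_zero _).2 ha) (pow_ne_zero _ ((_root_.map_ne_zero _).2 hy))
  have hlam0 : ∀ i, lam i ≠ 0 := by
    intro i h
    have h1 := hval i
    rw [h, map_zero] at h1
    exact hprod0 (Finset.prod_eq_zero (Finset.mem_univ i) h1.symm)
  have hcont : ∀ w : unramified F Ω U, ∃ K : IntermediateField L (algebraicClosure L Ω),
      FiniteDimensional L K ∧ ∀ σ ∈ K.fixingSubgroup,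
        ((toRingAutHom F (unramified F Ω U)).comp G.toHom) σ w = w := by
    intro w
    have h1 : {e : unramified F Ω U ≃ₐ[F] unramified F Ω U | e w = w} ∈
        nhds (1 : unramified F Ω U ≃ₐ[F] unramified F Ω U) := by
      rw [krullTopology_mem_nhds_one_iff]
      refine ⟨F⟮w⟯, ?_, ?_⟩
      · exact adjoin.finiteDimensional (Algebra.IsIntegral.isIntegral _)
      · intro e he
        exact (mem_fixingSubgroup_iff _ _).1 he _ (mem_adjoin_simple_self F _)
    have h2 := G.cont.tendsto 1
    rw [map_one] at h2
    have h3 := h2 h1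
    rw [Filter.mem_map, krullTopology_mem_nhds_one_iff] at h3
    obtain ⟨K, hK, hK'⟩ := h3
    exact ⟨K, hK, fun σ hσ => hK' hσ⟩
  have hιs : ∀ σ c, ((toRingAutHom F (unramified F Ω U)).comp G.toHom) σ (ι c) = ι (σ c) :=
    fun σ c => Subtype.ext (G.compat σ c (constHom hU c) rfl)
  have hfix : ∀ (σ) (z : F), ((toRingAutHom F (unramified F Ω U)).comp G.toHom) σ
      (algebraMap F (unramified F Ω U) z) = algebraMap F (unramified F Ω U) z :=
    fun σ z => (G.toHom σ).commutes z
  let act : (algebraicClosure L Ω ≃ₐ[L] algebraicClosure L Ω) →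
      (E →ₐ[k] algebraicClosure L Ω) → (E →ₐ[k] algebraicClosure L Ω) := fun σ i =>
    ((σ : algebraicClosure L Ω →ₐ[L] algebraicClosure L Ω).restrictScalars k).comp i
  have hact : ∀ σ, Function.Bijective (act σ) := by
    intro σ
    refine ⟨fun i i' h => ?_, fun i => ⟨act σ⁻¹ i, ?_⟩⟩
    · ext z
      exact congrArg _ (σ.injective (DFunLike.congr_fun h z))
    · ext z
      exact congrArg _ (σ.apply_symm_apply (i z))
  obtain ⟨m, hm⟩ := hdvd
  have hE''pos : 0 < Module.finrank L E'' := Module.finrank_pos
  have hmain := core2 (k := L) (E := E'') ((toRingAutHom F (unramified F Ω U)).comp G.toHom) ι hιs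
    hcont (algebraMap k L a) (algebraMap F (unramified F Ω U) y) ((_root_.map_ne_zero _).2 hy)
    (fun σ => hfix σ y) act hact lam hlam0 (by
      intro σ i
      rw [hlam]
      simp only
      rw [map_sum]
      refine Finset.sum_congr rfl fun j _ => ?_
      rw [map_mul, hfix, hιs]
      rfl)
    (fun i => c (i.comp (IsScalarTower.toAlgHom k E' E))) (by
      intro σ i
      exact hc σ (i.comp (IsScalarTower.toAlgHom k E' E)))
    n r (m * t) hn (by rw [hnr, hm, mul_assoc]) (by
      apply (algebraMap (unramified F Ω U) Ω).injective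
      rw [map_prod]
      simp only [hval]
      rw [hprod, map_mul, map_pow, ← IsScalarTower.algebraMap_apply F (unramified F Ω U) Ω,
        IsScalarTower.algebraMap_apply k L Ω]
      rfl) (by
      intro i i'
      refine exists_root_unramified (k := L) U hU hn _ ?_
      intro _ W hW
      have hv : ((lam i / lam i' : unramified F Ω U) : Ω) =
          (∑ j, algebraMap (algebraicClosure L Ω) Ω (i (α j)) * algebraMap F Ω (x j)) /
            (∑ j, algebraMap (algebraicClosure L Ω) Ω (i' (α j)) * algebraMap F Ω (x j)) := by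
        rw [← hval, ← hval]
        exact map_div₀ (algebraMap (unramified F Ω U) Ω) _ _
      rw [hv]
      exact hloc i i' W hW)
  have hfin : ∃ e : E'', Algebra.norm L e =
      algebraMap k L a ^ (fac (Module.finrank k E') t * r) := by
    unfold fac
    split_ifs with heven
    · rw [one_mul]
      refine norm_even hmain ?_
      rcases Nat.even_mul.1 heven with h | h
      · exact (h.mul_left m).mul_right _
      · refine Even.mul_left ?_ _
        have h1 : Odd (Module.finrank k E') := by
          have h2 : 0 < Module.finrank k E' := Module.finrank_pos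
          obtain ⟨q, hq⟩ := h
          exact ⟨q, by omega⟩
        rw [hm] at h1
        obtain ⟨q, hq⟩ := (Nat.odd_mul.1 h1).1
        exact ⟨q, by omega⟩
    · exact norm_double hmain
  obtain ⟨e'', he''⟩ := hfin
  obtain ⟨e, he⟩ := hdesc e''
  refine ⟨e, ?_⟩
  rw [he, he'', ← map_pow, Algebra.norm_algebraMap, ← pow_mul]

omit [CharZero k] [FiniteDimensional k E] [IsGalois k E'] [IsCyclic (E' ≃ₐ[k] E')]
  [FiniteDimensional k L] [IsAlgClosed Ω] [Algebra.IsAlgebraic F Ω] [Algebra E' E]
  [IsScalarTower k E' E] [Algebra k E'] in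
/-- the conjugate functions vanish together on the orbits -/
theorem zero_act (U : Set (ValuationSubring F)) (hU : ∀ O ∈ U, ∀ c : L, algebraMap L F c ∈ O)
    (G : GSection L F Ω U) {J : Type} [Fintype J] (α : J → E) (x : J → F)
    (i : E →ₐ[k] algebraicClosure L Ω)
    (h : ∑ j, algebraMap (algebraicClosure L Ω) Ω (i (α j)) * algebraMap F Ω (x j) = 0)
    (σ : algebraicClosure L Ω ≃ₐ[L] algebraicClosure L Ω) :
    ∑ j, algebraMap (algebraicClosure L Ω) Ω (σ (i (α j))) * algebraMap F Ω (x j) = 0 := by
  set ι : algebraicClosure L Ω →+* unramified F Ω U := constHom hU with hι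
  have hval : ∀ z : J → algebraicClosure L Ω, algebraMap (unramified F Ω U) Ω
      (∑ j, ι (z j) * algebraMap F (unramified F Ω U) (x j)) =
      ∑ j, algebraMap (algebraicClosure L Ω) Ω (z j) * algebraMap F Ω (x j) := by
    intro z
    rw [map_sum]
    exact Finset.sum_congr rfl fun l _ => map_mul (algebraMap (unramified F Ω U) Ω) _ _
  have h1 : ∑ j, ι (i (α j)) * algebraMap F (unramified F Ω U) (x j) = 0 := by
    apply (algebraMap (unramified F Ω U) Ω).injective
    rw [hval, h, map_zero]
  have h2 := congrArg (G.toHom σ) h1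
  rw [map_sum, map_zero] at h2
  rw [← hval, ← map_zero (algebraMap (unramified F Ω U) Ω)]
  refine congrArg _ (Eq.trans ?_ h2)
  refine Finset.sum_congr rfl fun j _ => ?_
  have h3 : G.toHom σ (ι (i (α j))) = ι (σ (i (α j))) :=
    Subtype.ext (G.compat σ _ (constHom hU _) rfl)
  rw [map_mul, (G.toHom σ).commutes, h3]

end genL

/-- products over the embeddings -/
theorem prod_closure {k E L Ω : Type} [Field k] [Field E] [Field L] [Field Ω] [CharZero k]
    [Algebra k E] [FiniteDimensional k E] [Algebra k L] [Algebra L Ω] [Algebra k Ω]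
    [IsScalarTower k L Ω] [IsAlgClosed Ω] (f : (E →ₐ[k] Ω) → Ω) :
    ∏ i : E →ₐ[k] algebraicClosure L Ω,
      f (((algebraicClosure L Ω).val.restrictScalars k).comp i) = ∏ σ : E →ₐ[k] Ω, f σ := by
  have hac : IsAlgClosure L (algebraicClosure L Ω) := inferInstance
  have hA : IsAlgClosed (algebraicClosure L Ω) := hac.1
  refine Fintype.prod_bijective (fun i : E →ₐ[k] algebraicClosure L Ω =>
    ((algebraicClosure L Ω).val.restrictScalars k).comp i) ?_ _ _ fun i => rfl
  rw [Fintype.bijective_iff_injective_and_card]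
  refine ⟨?_, ?_⟩
  · intro i i' h
    ext z
    exact congrArg _ (Subtype.ext (DFunLike.congr_fun h z))
  · rw [AlgHom.card k E (algebraicClosure L Ω), AlgHom.card k E Ω]

section pt

variable {k E' E L A : Type} [Field k] [Field E'] [Field E] [Field L] [Field A]
  [CharZero k] [Algebra k E'] [Algebra E' E] [Algebra k E] [IsScalarTower k E' E]
  [FiniteDimensional k E] [Algebra k L] [FiniteDimensional k L] [Algebra L A] [Algebra k A]
  [IsScalarTower k L A] [IsAlgClosed A] [Algebra.IsAlgebraic L A]

/-- if `E` embeds into `L`, then all powers with exponents divisible by `[L : k]` are norms -/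
theorem norm_of_embeds (i : E →ₐ[k] A) (hi : ∀ (σ : A ≃ₐ[L] A) (z : E), σ (i z) = i z)
    (a : k) (c : ℕ) : ∃ e : E', Algebra.norm k e = a ^ (c * Module.finrank k L) := by
  have hfdE' : FiniteDimensional k E' := FiniteDimensional.left k E' E
  have hcL : CharZero L := charZero_of_injective_algebraMap (algebraMap k L).injective
  have hacl : IsAlgClosure L A := ⟨‹_›, ‹_›⟩
  have hnormA : Normal L A := IsAlgClosure.normal L A
  have hgalA : IsGalois L A := ⟨⟩
  have h1 : ∀ z : E, ∃ l : L, algebraMap L A l = i z := fun z =>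
    IntermediateField.mem_bot.1 ((InfiniteGalois.mem_bot_iff_fixed (i z)).2 fun σ => hi σ z)
  choose f hf using h1
  have hinj := (algebraMap L A).injective
  let φ : E →+* L :=
    { toFun := f
      map_one' := hinj (by rw [hf, map_one, map_one])
      map_mul' := fun x y => hinj (by rw [hf, map_mul, map_mul, hf, hf])
      map_zero' := hinj (by rw [hf, map_zero, map_zero])
      map_add' := fun x y => hinj (by rw [hf, map_add, map_add, hf, hf]) }
  let _ : Algebra E L := φ.toAlgebra
  have hst : IsScalarTower k E L := IsScalarTower.of_algebraMap_eq fun x => hinj (by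
    change algebraMap L A (algebraMap k L x) = algebraMap L A (f (algebraMap k E x))
    rw [hf, i.commutes, ← IsScalarTower.algebraMap_apply k L A])
  have h2 : Module.finrank k E * Module.finrank E L = Module.finrank k L :=
    Module.finrank_mul_finrank k E L
  have h3 : Module.finrank k E' * Module.finrank E' E = Module.finrank k E :=
    Module.finrank_mul_finrank k E' E
  refine ⟨algebraMap k E' (a ^ (c * (Module.finrank E' E * Module.finrank E L))), ?_⟩
  rw [Algebra.norm_algebraMap, ← pow_mul, ← h2, ← h3]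
  congr 1
  ring

theorem genPt [IsGalois k E'] [IsCyclic (E' ≃ₐ[k] E')] {J : Type} [Fintype J] (α : J → E)
    (x : J → L) (y : L) (hy : y ≠ 0) (a : k) (ha : a ≠ 0) (n r t : ℕ) (hn : 0 < n)
    (hnr : n * r = Module.finrank k E' * t)
    (hprod : ∏ i : E →ₐ[k] A, ∑ j, i (α j) * algebraMap L A (x j) =
        algebraMap k A a * algebraMap L A y ^ n) :
    ∃ e : E', Algebra.norm k e = a ^ (fac (Module.finrank k E') t * r * Module.finrank k L) := by
  have hfdE' : FiniteDimensional k E' := FiniteDimensional.left k E' E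
  have hcL : CharZero L := charZero_of_injective_algebraMap (algebraMap k L).injective
  obtain ⟨E'', hfd, hgal, hcyc, hdvd, ⟨c, hc⟩, hdesc⟩ := exists_ext (k := k) (L := L) (E := E')
    (A := A)
  set lam : (E →ₐ[k] A) → A := fun i => ∑ j, i (α j) * algebraMap L A (x j) with hlam
  have hprod0 : ∏ i : E →ₐ[k] A, lam i ≠ 0 := by
    rw [hprod]
    exact mul_ne_zero ((_root_.map_ne_zero _).2 ha) (pow_ne_zero _ ((_root_.map_ne_zero _).2 hy))
  have hlam0 : ∀ i, lam i ≠ 0 := by
    intro i h
    exact hprod0 (Finset.prod_eq_zero (Finset.mem_univ i) h)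
  let act : (A ≃ₐ[L] A) → (E →ₐ[k] A) → (E →ₐ[k] A) := fun σ i =>
    ((σ : A →ₐ[L] A).restrictScalars k).comp i
  have hact : ∀ σ, Function.Bijective (act σ) := by
    intro σ
    refine ⟨fun i i' h => ?_, fun i => ⟨act σ⁻¹ i, ?_⟩⟩
    · ext z
      exact σ.injective (DFunLike.congr_fun h z)
    · ext z
      exact σ.apply_symm_apply (i z)
  obtain ⟨m, hm⟩ := hdvd
  have hE''pos : 0 < Module.finrank L E'' := Module.finrank_pos
  have hmain := core2 (k := L) (E := E'') (toRingAutHom L A) (RingHom.id A) (fun _ _ => rfl)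
    (fun w => ⟨L⟮w⟯, adjoin.finiteDimensional (Algebra.IsIntegral.isIntegral _),
      fun σ hσ => (mem_fixingSubgroup_iff _ _).1 hσ _ (mem_adjoin_simple_self L _)⟩)
    (algebraMap k L a) (algebraMap L A y) ((_root_.map_ne_zero _).2 hy)
    (fun σ => σ.commutes y) act hact lam hlam0 (by
      intro σ i
      rw [hlam]
      simp only
      rw [map_sum]
      refine Finset.sum_congr rfl fun j _ => ?_
      rw [map_mul]
      exact congrArg _ (σ.commutes (x j)))
    (fun i => c (i.comp (IsScalarTower.toAlgHom k E' E))) (by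
      intro σ i
      exact hc σ (i.comp (IsScalarTower.toAlgHom k E' E)))
    n r (m * t) hn (by rw [hnr, hm, mul_assoc]) (by
      rw [hprod, ← IsScalarTower.algebraMap_apply k L A]
      rfl) (by
      intro i i'
      exact IsAlgClosed.exists_pow_nat_eq _ hn)
  have hfin : ∃ e : E'', Algebra.norm L e =
      algebraMap k L a ^ (fac (Module.finrank k E') t * r) := by
    unfold fac
    split_ifs with heven
    · rw [one_mul]
      refine norm_even hmain ?_
      rcases Nat.even_mul.1 heven with h | h
      · exact (h.mul_left m).mul_right _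
      · refine Even.mul_left ?_ _
        have h1 : Odd (Module.finrank k E') := by
          have h2 : 0 < Module.finrank k E' := Module.finrank_pos
          obtain ⟨q, hq⟩ := h
          exact ⟨q, by omega⟩
        rw [hm] at h1
        obtain ⟨q, hq⟩ := (Nat.odd_mul.1 h1).1
        exact ⟨q, by omega⟩
    · exact norm_double hmain
  obtain ⟨e'', he''⟩ := hfin
  obtain ⟨e, he⟩ := hdesc e''
  refine ⟨e, ?_⟩
  rw [he, he'', ← map_pow, Algebra.norm_algebraMap, ← pow_mul]

end pt

end Pool.Agent.N999.CY
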