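import Pool.Agent.N999.CY.GenL

/-!
# Superelliptic equations: ratios of conjugate polynomials
-/

set_option autoImplicit false
set_option maxHeartbeats 1000000

namespace Pool.Agent.N999.CY

open Pool.Agent.W620.SC Pool.Agent.W623.SecC Pool.Agent.TH120.Sec Polynomial

lemma IsU.mul_pow_ratio {K : Type*} [Field K] {V : ValuationSubring K} {u v w : K}
    (hu : IsU V u) (hv : IsU V v) (hw : w ≠ 0) : IsU V (w * u / (w * v)) := by
  rw [mul_div_mul_left _ _ hw]
  exact hu.div hv

/-- the values of a polynomial at a place where `x` has a pole -/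
lemma eval_pole {A Ω : Type*} [Field A] [Field Ω] (j : A →+* Ω) (W : ValuationSubring Ω)
    (hW : ∀ c, j c ∈ W) (p : A[X]) (hp : p ≠ 0) (x : Ω) (hx : x ∉ W) :
    ∃ u : Ω, IsU W u ∧ p.eval₂ j x = x ^ p.natDegree * u := by
  have hx0 : x ≠ 0 := by
    rintro rfl
    exact hx (zero_mem W)
  have hxinv : x⁻¹ ∈ W := (W.mem_or_inv_mem x).resolve_left hx
  have hxn : x⁻¹ ∈ W.nonunits := by
    rw [ValuationSubring.mem_nonunits_iff_or]
    right
    rwa [inv_inv]
  have hconst : ∀ a : A, a ≠ 0 → IsU W (j a) := fun a ha =>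
    ⟨(_root_.map_ne_zero j).2 ha, hW a, by rw [← map_inv₀]; exact hW _⟩
  set u : Ω := p.reverse.eval₂ j x⁻¹ with hu
  have h1 : u * x ^ p.natDegree = p.eval₂ j x := by
    let _ : Invertible x := invertibleOfNonzero hx0
    have h2 := eval₂_reverse_mul_pow j x p
    rw [invOf_eq_inv] at h2
    exact h2
  have hmem : ∀ q : A[X], q.eval₂ j x⁻¹ ∈ W := by
    intro q
    rw [eval₂_eq_sum_range]
    exact sum_mem fun i _ => mul_mem (hW _) (pow_mem hxinv _)
  have h3 : u = x⁻¹ * p.reverse.divX.eval₂ j x⁻¹ + j p.leadingCoeff := by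
    rw [hu]
    conv_lhs => rw [← divX_mul_X_add p.reverse]
    rw [eval₂_add, eval₂_mul, eval₂_X, eval₂_C, coeff_zero_reverse, mul_comm]
  refine ⟨u, ?_, by rw [← h1, mul_comm]⟩
  apply isU_of_not_nonunit (hmem _)
  intro h4
  have h5 : x⁻¹ * p.reverse.divX.eval₂ j x⁻¹ ∈ W.nonunits := by
    rw [mul_comm]
    exact nonunit_mul (hmem _) hxn
  have h6 : j p.leadingCoeff = u - x⁻¹ * p.reverse.divX.eval₂ j x⁻¹ := by
    rw [h3]
    ring
  have h7 := hconst _ (leadingCoeff_ne_zero.2 hp)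
  apply h7.not_nonunit
  rw [h6, W.mem_nonunits_iff]
  exact lt_of_le_of_lt (Valuation.map_sub _ _ _)
    (max_lt ((W.mem_nonunits_iff).1 h4) ((W.mem_nonunits_iff).1 h5))

/-- ratios of pairwise coprime polynomials whose product is an `n`-th power are `n`-th powers up to
units -/
lemma ratio_poly {A Ω : Type*} [Field A] [Field Ω] (j : A →+* Ω) (W : ValuationSubring Ω)
    (hW : ∀ c, j c ∈ W) {X : Type*} [Fintype X] (p : X → A[X])
    (hcop : ∀ i i', i ≠ i' → IsCoprime (p i) (p i')) (e : ℕ) (hdeg : ∀ i, (p i).natDegree = e)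
    (x y : Ω) (n : ℕ) (hn : 0 < n) (c : A) (hc : c ≠ 0)
    (hrel : ∏ i, (p i).eval₂ j x = j c * y ^ n) (h0 : ∀ i, (p i).eval₂ j x ≠ 0) (i i' : X) :
    ∃ m : ℤ, y ^ m ≠ 0 ∧ (p i).eval₂ j x / (p i').eval₂ j x / (y ^ m) ^ n ∈ W ∧
      (y ^ m) ^ n / ((p i).eval₂ j x / (p i').eval₂ j x) ∈ W := by
  classical
  have hconst : ∀ a : A, a ≠ 0 → IsU W (j a) := fun a ha =>
    ⟨(_root_.map_ne_zero j).2 ha, hW a, by rw [← map_inv₀]; exact hW _⟩
  have hy0 : y ≠ 0 := by
    rintro rfl
    rw [zero_pow hn.ne', mul_zero] at hrel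
    exact Finset.prod_ne_zero_iff.2 (fun i _ => h0 i) hrel
  have hsuff : ∀ m : ℤ, IsU W ((p i).eval₂ j x / (p i').eval₂ j x / (y ^ m) ^ n) →
      ∃ m : ℤ, y ^ m ≠ 0 ∧ (p i).eval₂ j x / (p i').eval₂ j x / (y ^ m) ^ n ∈ W ∧
      (y ^ m) ^ n / ((p i).eval₂ j x / (p i').eval₂ j x) ∈ W := by
    intro m h
    refine ⟨m, zpow_ne_zero _ hy0, h.2.1, ?_⟩
    have := h.2.2
    rwa [inv_div] at this
  by_cases hx : x ∈ W
  · have hmem : ∀ q : A[X], q.eval₂ j x ∈ W := by
      intro q
      rw [eval₂_eq_sum_range]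
      exact sum_mem fun i _ => mul_mem (hW _) (pow_mem hx _)
    have hother : ∀ l, (p l).eval₂ j x ∈ W.nonunits → ∀ l', l' ≠ l → IsU W ((p l').eval₂ j x) := by
      intro l hl l' hl'
      apply isU_of_not_nonunit (hmem _)
      intro h1
      obtain ⟨u, v, huv⟩ := hcop l' l hl'
      have h2 : u.eval₂ j x * (p l').eval₂ j x + v.eval₂ j x * (p l).eval₂ j x = 1 := by
        rw [← eval₂_mul, ← eval₂_mul, ← eval₂_add, huv, eval₂_one]
      have h3 : (1 : Ω) ∈ W.nonunits := by
        rw [← h2, W.mem_nonunits_iff]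
        exact lt_of_le_of_lt (Valuation.map_add _ _ _)
          (max_lt ((W.mem_nonunits_iff).1 (nonunit_mul (hmem _) h1))
            ((W.mem_nonunits_iff).1 (nonunit_mul (hmem _) hl)))
      exact isU_one.not_nonunit h3
    have hkey : ∀ l, (p l).eval₂ j x ∈ W.nonunits → IsU W ((p l).eval₂ j x / y ^ n) := by
      intro l hl
      have hP : IsU W (∏ l' ∈ Finset.univ.erase l, (p l').eval₂ j x) :=
        IsU.prod _ _ fun l' hl' => hother l hl l' (Finset.ne_of_mem_erase hl')
      rw [← Finset.mul_prod_erase Finset.univ (fun i => (p i).eval₂ j x)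
        (Finset.mem_univ l)] at hrel
      have h2 : (p l).eval₂ j x / y ^ n = j c / ∏ l' ∈ Finset.univ.erase l, (p l').eval₂ j x := by
        rw [div_eq_div_iff (pow_ne_zero _ hy0) hP.1]
        exact hrel
      rw [h2]
      exact (hconst c hc).div hP
    by_cases hii : i = i'
    · subst hii
      apply hsuff 0
      rw [div_self (h0 i), zpow_zero, one_pow, div_one]
      exact isU_one
    by_cases hni : (p i).eval₂ j x ∈ W.nonunits
    · apply hsuff 1
      rw [zpow_one, div_right_comm]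
      exact (hkey i hni).div (hother i hni i' (Ne.symm hii))
    · by_cases hni' : (p i').eval₂ j x ∈ W.nonunits
      · apply hsuff (-1)
        have h1 : (p i).eval₂ j x / (p i').eval₂ j x / (y ^ (-1 : ℤ)) ^ n =
            (p i).eval₂ j x / ((p i').eval₂ j x / y ^ n) := by
          rw [zpow_neg, zpow_one, inv_pow, div_inv_eq_mul, div_mul_eq_mul_div,
            div_div_eq_mul_div]
        rw [h1]
        exact (hother i' hni' i hii).div (hkey i' hni')
      · apply hsuff 0
        rw [zpow_zero, one_pow, div_one]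
        exact (isU_of_not_nonunit (hmem _) hni).div (isU_of_not_nonunit (hmem _) hni')
  · have hx0 : x ≠ 0 := by
      rintro rfl
      exact hx (zero_mem W)
    have hp : ∀ i, p i ≠ 0 := by
      intro i h
      exact h0 i (by rw [h, eval₂_zero])
    obtain ⟨u, hu, hu'⟩ := eval_pole j W hW (p i) (hp i) x hx
    obtain ⟨v, hv, hv'⟩ := eval_pole j W hW (p i') (hp i') x hx
    apply hsuff 0
    rw [zpow_zero, one_pow, div_one, hu', hv', hdeg, hdeg]
    exact IsU.mul_pow_ratio hu hv (pow_ne_zero _ hx0)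

end Pool.Agent.N999.CY
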